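import Pool.Agent.helper47.EIF.Spec

/-! # eif:LEV (MP_f6e9a2_nt): level sets -/

set_option autoImplicit false

open Finset

namespace Pool.Agent.EIF

theorem LEV_num (k : ℕ) (l s M₁ M₂ : ℝ) (hk : 0 < k) (hl : 0 < l) (hs : 0 < s)
    (h1 : l * s ≤ 2 * M₁) (h2 : l ^ 2 * s ≤ 4 * M₂) :
    l * s ^ (1 - 1 / (2 * (k : ℝ))) ≤ 4 * (M₁ ^ (1 - 1 / (k : ℝ)) * M₂ ^ (1 / (2 * (k : ℝ)))) := by
  have hk' : (1 : ℝ) ≤ k := by exact_mod_cast hk
  have hk0 : (0 : ℝ) < k := by linarith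
  have hM1 : 0 ≤ M₁ := by nlinarith [mul_pos hl hs]
  have hM2 : 0 ≤ M₂ := by nlinarith [mul_pos (pow_pos hl 2) hs]
  have ha : 0 ≤ 1 - 1 / (k : ℝ) := by
    rw [sub_nonneg, div_le_one hk0]
    exact hk'
  have hb : 0 ≤ 1 / (2 * (k : ℝ)) := by positivity
  have e : l * s ^ (1 - 1 / (2 * (k : ℝ))) =
      (l * s) ^ (1 - 1 / (k : ℝ)) * (l ^ 2 * s) ^ (1 / (2 * (k : ℝ))) := by
    rw [Real.mul_rpow hl.le hs.le, Real.mul_rpow (by positivity) hs.le, ← Real.rpow_natCast l 2,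
      ← Real.rpow_mul hl.le]
    have e1 : l ^ (1 - 1 / (k : ℝ)) * s ^ (1 - 1 / (k : ℝ)) *
        (l ^ (((2 : ℕ) : ℝ) * (1 / (2 * (k : ℝ)))) * s ^ (1 / (2 * (k : ℝ)))) =
        (l ^ (1 - 1 / (k : ℝ)) * l ^ (((2 : ℕ) : ℝ) * (1 / (2 * (k : ℝ))))) *
          (s ^ (1 - 1 / (k : ℝ)) * s ^ (1 / (2 * (k : ℝ)))) := by ring
    rw [e1, ← Real.rpow_add hl, ← Real.rpow_add hs]
    have e2 : 1 - 1 / (k : ℝ) + ((2 : ℕ) : ℝ) * (1 / (2 * (k : ℝ))) = 1 := by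
      push_cast
      field_simp
      ring
    have e3 : 1 - 1 / (k : ℝ) + 1 / (2 * (k : ℝ)) = 1 - 1 / (2 * (k : ℝ)) := by
      field_simp
      ring
    rw [e2, e3, Real.rpow_one]
  rw [e]
  have h3 : (l * s) ^ (1 - 1 / (k : ℝ)) ≤ (2 * M₁) ^ (1 - 1 / (k : ℝ)) :=
    Real.rpow_le_rpow (by positivity) h1 ha
  have h4 : (l ^ 2 * s) ^ (1 / (2 * (k : ℝ))) ≤ (4 * M₂) ^ (1 / (2 * (k : ℝ))) :=
    Real.rpow_le_rpow (by positivity) h2 hb
  have h5 : (2 * M₁) ^ (1 - 1 / (k : ℝ)) ≤ 2 * M₁ ^ (1 - 1 / (k : ℝ)) := by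
    rw [Real.mul_rpow (by norm_num) hM1]
    apply mul_le_mul_of_nonneg_right _ (Real.rpow_nonneg hM1 _)
    calc (2 : ℝ) ^ (1 - 1 / (k : ℝ)) ≤ 2 ^ (1 : ℝ) := by
          apply Real.rpow_le_rpow_of_exponent_le (by norm_num)
          have : 0 ≤ 1 / (k : ℝ) := by positivity
          linarith
      _ = 2 := Real.rpow_one 2
  have h6 : (4 * M₂) ^ (1 / (2 * (k : ℝ))) ≤ 2 * M₂ ^ (1 / (2 * (k : ℝ))) := by
    rw [Real.mul_rpow (by norm_num) hM2]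
    apply mul_le_mul_of_nonneg_right _ (Real.rpow_nonneg hM2 _)
    calc (4 : ℝ) ^ (1 / (2 * (k : ℝ))) ≤ 4 ^ (1 / 2 : ℝ) := by
          apply Real.rpow_le_rpow_of_exponent_le (by norm_num)
          rw [div_le_div_iff₀ (by positivity) (by norm_num)]
          linarith
      _ = 2 := by
          rw [← Real.sqrt_eq_rpow]
          rw [show (4 : ℝ) = 2 ^ 2 by norm_num]
          exact Real.sqrt_sq (by norm_num)
  calc (l * s) ^ (1 - 1 / (k : ℝ)) * (l ^ 2 * s) ^ (1 / (2 * (k : ℝ)))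
      ≤ (2 * M₁ ^ (1 - 1 / (k : ℝ))) * (2 * M₂ ^ (1 / (2 * (k : ℝ)))) :=
        mul_le_mul (h3.trans h5) (h4.trans h6) (Real.rpow_nonneg (by positivity) _)
          (by positivity)
    _ = _ := by ring

theorem LEV_level (p : ℕ) [NeZero p] (G W : ZMod p → ℝ) (k : ℕ) (c₁ c₂ M₁ M₂ l : ℝ)
    (hk : 0 < k) (hc1 : 0 ≤ c₁) (hc2 : 0 ≤ c₂) (hM1 : 0 ≤ M₁) (hM2 : 0 ≤ M₂) (hG : ∀ t, 0 ≤ G t)
    (hW : ∀ t, 0 ≤ W t) (h1 : ∑ t, G t ≤ M₁) (h2 : ∑ t, G t ^ 2 ≤ M₂)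
    (hS : ∀ S : Finset (ZMod p), S.Nonempty →
      ∑ t ∈ S, W t ≤ c₁ * S.card + c₂ * (S.card : ℝ) ^ (1 - 1 / (2 * (k : ℝ))))
    (hl : 0 < l) (S : Finset (ZMod p)) (hSl : ∀ t ∈ S, l / 2 < G t ∧ G t ≤ l) :
    ∑ t ∈ S, G t * W t ≤
      2 * c₁ * M₁ + 4 * c₂ * (M₁ ^ (1 - 1 / (k : ℝ)) * M₂ ^ (1 / (2 * (k : ℝ)))) := by
  have hX : 0 ≤ M₁ ^ (1 - 1 / (k : ℝ)) * M₂ ^ (1 / (2 * (k : ℝ))) :=
    mul_nonneg (Real.rpow_nonneg hM1 _) (Real.rpow_nonneg hM2 _)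
  rcases S.eq_empty_or_nonempty with rfl | hne
  · rw [sum_empty]
    positivity
  · have hcard : (0 : ℝ) < S.card := by exact_mod_cast hne.card_pos
    have e1 : ∑ t ∈ S, G t * W t ≤ l * ∑ t ∈ S, W t := by
      rw [mul_sum]
      exact sum_le_sum fun t ht => mul_le_mul_of_nonneg_right (hSl t ht).2 (hW t)
    have e2 : l * S.card ≤ 2 * M₁ := by
      have h3 : ∑ t ∈ S, l / 2 ≤ ∑ t ∈ S, G t := sum_le_sum fun t ht => (hSl t ht).1.le
      have h4 : ∑ t ∈ S, G t ≤ ∑ t, G t :=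
        sum_le_sum_of_subset_of_nonneg (subset_univ _) fun t _ _ => hG t
      rw [sum_const, nsmul_eq_mul] at h3
      nlinarith
    have e3 : l ^ 2 * S.card ≤ 4 * M₂ := by
      have h3 : ∑ t ∈ S, (l / 2) ^ 2 ≤ ∑ t ∈ S, G t ^ 2 :=
        sum_le_sum fun t ht => pow_le_pow_left₀ (by positivity) (hSl t ht).1.le 2
      have h4 : ∑ t ∈ S, G t ^ 2 ≤ ∑ t, G t ^ 2 :=
        sum_le_sum_of_subset_of_nonneg (subset_univ _) fun t _ _ => sq_nonneg _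
      rw [sum_const, nsmul_eq_mul] at h3
      nlinarith
    have e4 := LEV_num k l S.card M₁ M₂ hk hl hcard e2 e3
    have e5 := mul_le_mul_of_nonneg_left (hS S hne) hl.le
    have e6 := mul_le_mul_of_nonneg_left e4 hc2
    have e7 := mul_le_mul_of_nonneg_left e2 hc1
    calc ∑ t ∈ S, G t * W t ≤ l * ∑ t ∈ S, W t := e1
      _ ≤ l * (c₁ * S.card + c₂ * (S.card : ℝ) ^ (1 - 1 / (2 * (k : ℝ)))) := e5
      _ = c₁ * (l * S.card) + c₂ * (l * (S.card : ℝ) ^ (1 - 1 / (2 * (k : ℝ)))) := by ring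
      _ ≤ c₁ * (2 * M₁) + c₂ * (4 * (M₁ ^ (1 - 1 / (k : ℝ)) * M₂ ^ (1 / (2 * (k : ℝ))))) :=
        add_le_add e7 e6
      _ = _ := by ring

theorem LEV : LEV_stmt := by
  intro p _ G W k I h c₁ c₂ M₁ M₂ P₀ hk hc1 hc2 hM1 hM2 hG hGP hW hWh h1 h2 hS
  have hX : 0 ≤ M₁ ^ (1 - 1 / (k : ℝ)) * M₂ ^ (1 / (2 * (k : ℝ))) :=
    mul_nonneg (Real.rpow_nonneg hM1 _) (Real.rpow_nonneg hM2 _)
  have hP : 0 ≤ P₀ := (hG 0).trans (hGP 0)
  have hh : 0 ≤ h := (hW 0).trans (hWh 0)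
  set C : ℝ := 2 * c₁ * M₁ + 4 * c₂ * (M₁ ^ (1 - 1 / (k : ℝ)) * M₂ ^ (1 / (2 * (k : ℝ)))) with hC
  have hC0 : 0 ≤ C := by positivity
  rcases hP.eq_or_lt with hP0 | hP0
  · have hz : ∀ t, G t = 0 := fun t => le_antisymm (by rw [hP0]; exact hGP t) (hG t)
    have : ∑ t, G t * W t = 0 := by
      refine sum_eq_zero fun t _ => ?_
      rw [hz t, zero_mul]
    rw [this, ← hP0]
    positivity
  · -- the induction on the number of levels
    have key : ∀ I : ℕ, ∑ t, G t * W t ≤ I * C +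
        ∑ t ∈ univ.filter (fun t => G t ≤ P₀ / 2 ^ I), G t * W t := by
      intro I
      induction I with
      | zero =>
        have e : univ.filter (fun t => G t ≤ P₀ / 2 ^ 0) = univ := by
          refine filter_true_of_mem fun t _ => ?_
          rw [pow_zero, div_one]
          exact hGP t
        rw [e]
        simp
      | succ I ih =>
        refine ih.trans ?_
        have hl : 0 < P₀ / 2 ^ I := by positivity
        have hsplit : ∑ t ∈ univ.filter (fun t => G t ≤ P₀ / 2 ^ I), G t * W t =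
            ∑ t ∈ (univ.filter (fun t => G t ≤ P₀ / 2 ^ I)).filter
              (fun t => G t ≤ P₀ / 2 ^ (I + 1)), G t * W t +
            ∑ t ∈ (univ.filter (fun t => G t ≤ P₀ / 2 ^ I)).filter
              (fun t => ¬ G t ≤ P₀ / 2 ^ (I + 1)), G t * W t :=
          (sum_filter_add_sum_filter_not _ _ _).symm
        rw [hsplit]
        have hlev := LEV_level p G W k c₁ c₂ M₁ M₂ (P₀ / 2 ^ I) hk hc1 hc2 hM1 hM2 hG hW h1 h2 hS hl
          ((univ.filter (fun t => G t ≤ P₀ / 2 ^ I)).filter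
              (fun t => ¬ G t ≤ P₀ / 2 ^ (I + 1))) (by
            intro t ht
            rw [mem_filter, mem_filter] at ht
            refine ⟨?_, ht.1.2⟩
            have h3 := not_le.1 ht.2
            have e : P₀ / 2 ^ (I + 1) = P₀ / 2 ^ I / 2 := by
              rw [pow_succ, div_div]
            rw [e] at h3
            exact h3)
        have hsub : ∑ t ∈ (univ.filter (fun t => G t ≤ P₀ / 2 ^ I)).filter
              (fun t => G t ≤ P₀ / 2 ^ (I + 1)), G t * W t ≤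
            ∑ t ∈ univ.filter (fun t => G t ≤ P₀ / 2 ^ (I + 1)), G t * W t := by
          refine sum_le_sum_of_subset_of_nonneg ?_ fun t _ _ => mul_nonneg (hG t) (hW t)
          intro t ht
          rw [mem_filter] at ht ⊢
          exact ⟨mem_univ _, ht.2⟩
        push_cast
        linarith
    refine (key I).trans ?_
    refine add_le_add le_rfl ?_
    have h3 : ∀ t ∈ univ.filter (fun t => G t ≤ P₀ / 2 ^ I), G t * W t ≤ P₀ / 2 ^ I * h := by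
      intro t ht
      exact mul_le_mul (mem_filter.1 ht).2 (hWh t) (hW t) (by positivity)
    refine (sum_le_sum h3).trans ?_
    rw [sum_const, nsmul_eq_mul]
    have h4 : ((univ.filter (fun t => G t ≤ P₀ / 2 ^ I)).card : ℝ) ≤ p := by
      have := card_filter_le (univ : Finset (ZMod p)) (fun t => G t ≤ P₀ / 2 ^ I)
      rw [card_univ, ZMod.card] at this
      exact_mod_cast this
    calc ((univ.filter (fun t => G t ≤ P₀ / 2 ^ I)).card : ℝ) * (P₀ / 2 ^ I * h)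
        ≤ p * (P₀ / 2 ^ I * h) := mul_le_mul_of_nonneg_right h4 (by positivity)
      _ = P₀ / 2 ^ I * (p * h) := by ring

end Pool.Agent.EIF
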