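import Pool.Agent.helper47.EIF.Spec

/-! # eif:PLE (MP_f6e9a2_nt): Plancherel estimates -/

set_option autoImplicit false

open Finset

namespace Pool.Agent.EIF

theorem PLE_ft_le {p : ℕ} [Fact p.Prime] (A : Finset (ZMod p)) (α : ZMod p → ℂ) (hα : ∀ a, ‖α a‖ ≤ 1)
    (t : ZMod p) : ‖Pool.Agent.SPI.ft A α t‖ ≤ A.card := by
  unfold Pool.Agent.SPI.ft
  refine (norm_sum_le _ _).trans ?_
  have h : ∀ a ∈ A, ‖α a * (ZMod.stdAddChar (t * a) : ℂ)‖ ≤ 1 := by
    intro a _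
    rw [norm_mul, AddChar.norm_apply, mul_one]
    exact hα a
  refine (sum_le_sum h).trans ?_
  rw [sum_const, nsmul_eq_mul, mul_one]

theorem PLE_sq_le {p : ℕ} [Fact p.Prime] (hPLN : Pool.Agent.SPI.PLN_stmt) (A : Finset (ZMod p))
    (α : ZMod p → ℂ) (hα : ∀ a, ‖α a‖ ≤ 1) :
    ∑ t : ZMod p, ‖Pool.Agent.SPI.ft A α t‖ ^ 2 ≤ p * A.card := by
  rw [hPLN p A α]
  refine mul_le_mul_of_nonneg_left ?_ (Nat.cast_nonneg p)
  have h : ∀ a ∈ A, ‖α a‖ ^ 2 ≤ 1 := fun a _ => pow_le_one₀ (norm_nonneg _) (hα a)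
  refine (sum_le_sum h).trans ?_
  rw [sum_const, nsmul_eq_mul, mul_one]

/-- the coefficients of the product -/
noncomputable def PLE_c {p : ℕ} (A B : Finset (ZMod p)) (α β : ZMod p → ℂ) (n : ZMod p) : ℂ :=
  ∑ z ∈ (A ×ˢ B).filter (fun z => z.1 + z.2 = n), α z.1 * β z.2

theorem PLE_mul {p : ℕ} [Fact p.Prime] (A B : Finset (ZMod p)) (α β : ZMod p → ℂ) (t : ZMod p) :
    Pool.Agent.SPI.ft A α t * Pool.Agent.SPI.ft B β t =
      Pool.Agent.SPI.ft univ (PLE_c A B α β) t := by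
  unfold Pool.Agent.SPI.ft
  rw [sum_mul_sum, ← sum_product' (s := A) (t := B)
    (f := fun a b => α a * (ZMod.stdAddChar (t * a) : ℂ) * (β b * (ZMod.stdAddChar (t * b) : ℂ)))]
  rw [← sum_fiberwise_of_maps_to (s := A ×ˢ B) (t := univ) (g := fun z => z.1 + z.2)
    (fun z _ => mem_univ _)]
  refine sum_congr rfl fun n _ => ?_
  unfold PLE_c
  rw [sum_mul]
  refine sum_congr rfl fun z hz => ?_
  rw [← (mem_filter.1 hz).2, mul_add, AddChar.map_add_eq_mul]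
  ring

theorem PLE (hPLN : Pool.Agent.SPI.PLN_stmt) : PLE_stmt := by
  intro p _ A B α β hα hβ
  refine ⟨?_, ?_, ?_⟩
  · refine (Real.sum_mul_le_sqrt_mul_sqrt _ _ _).trans ?_
    have h1 := Real.sqrt_le_sqrt (PLE_sq_le hPLN A α hα)
    have h2 := Real.sqrt_le_sqrt (PLE_sq_le hPLN B β hβ)
    refine (mul_le_mul h1 h2 (Real.sqrt_nonneg _) (Real.sqrt_nonneg _)).trans (le_of_eq ?_)
    rw [← Real.sqrt_mul (by positivity)]
    have e : (p : ℝ) * A.card * (p * B.card) = (p : ℝ) ^ 2 * (A.card * B.card) := by ring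
    rw [e, Real.sqrt_mul (by positivity), Real.sqrt_sq (by positivity)]
  · intro t
    exact mul_le_mul (PLE_ft_le A α hα t) (PLE_ft_le B β hβ t) (norm_nonneg _) (by positivity)
  · have e : ∀ t : ZMod p, (‖Pool.Agent.SPI.ft A α t‖ * ‖Pool.Agent.SPI.ft B β t‖) ^ 2 =
        ‖Pool.Agent.SPI.ft univ (PLE_c A B α β) t‖ ^ 2 := by
      intro t
      rw [← norm_mul, PLE_mul]
    simp only [e]
    rw [hPLN p univ (PLE_c A B α β), addEnergy_eq_sum_sq]
    refine mul_le_mul_of_nonneg_left ?_ (Nat.cast_nonneg p)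
    push_cast
    refine sum_le_sum fun n _ => ?_
    refine pow_le_pow_left₀ (norm_nonneg _) ?_ 2
    unfold PLE_c
    refine (norm_sum_le _ _).trans ?_
    have h : ∀ z ∈ (A ×ˢ B).filter (fun z => z.1 + z.2 = n), ‖α z.1 * β z.2‖ ≤ 1 := by
      intro z _
      rw [norm_mul]
      exact mul_le_one₀ (hα _) (norm_nonneg _) (hβ _)
    refine (sum_le_sum h).trans ?_
    rw [sum_const, nsmul_eq_mul, mul_one]

end Pool.Agent.EIF
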