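import Pool.Agent.helper47.EIF.Spec

/-! # eif:EXA (MP_f6e9a2_nt): the passage to the Fourier transforms -/

set_option autoImplicit false

open Finset

namespace Pool.Agent.EIF

theorem EXA_one (p : ℕ) [Fact p.Prime] (M v : ℕ) (b : ZMod p)
    (hb : b.valMinAbs.natAbs ≤ M) :
    ‖((ZMod.stdAddChar ((v : ZMod p) * b) : ℂ)) - 1‖ ≤ 2 * Real.pi * v * M / p := by
  have hp : (0 : ℝ) < p := by exact_mod_cast (Fact.out : p.Prime).pos
  set j : ℤ := b.valMinAbs with hj
  have hbj : (v : ZMod p) * b = (((v : ℤ) * j : ℤ) : ZMod p) := by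
    push_cast
    rw [hj, ZMod.coe_valMinAbs]
  rw [hbj, ZMod.stdAddChar_coe]
  have e : (2 * Real.pi * Complex.I * (((v : ℤ) * j : ℤ) : ℂ) / p : ℂ) =
      Complex.I * ((2 * Real.pi * v * j / p : ℝ) : ℂ) := by
    push_cast
    ring
  rw [e]
  refine (Real.norm_exp_I_mul_ofReal_sub_one_le).trans ?_
  rw [Real.norm_eq_abs, abs_div, abs_of_pos hp, abs_mul, abs_of_nonneg (by positivity : (0 : ℝ) ≤ 2 * Real.pi * v)]
  apply div_le_div_of_nonneg_right _ hp.le
  apply mul_le_mul_of_nonneg_left _ (by positivity)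
  have h1 : (j.natAbs : ℝ) = |(j : ℝ)| := by
    rw [Nat.cast_natAbs, Int.cast_abs]
  rw [← h1]
  exact_mod_cast hb

/-- `∑_(v<h) ψ(-v n)` -/
noncomputable def EXA_E {p : ℕ} [Fact p.Prime] (h : ℕ) (n : ZMod p) : ℂ :=
  ∑ v ∈ range h, (ZMod.stdAddChar (-((v : ZMod p) * n)) : ℂ)

theorem EXA_E_sub (p : ℕ) [Fact p.Prime] (h N : ℕ) (n : ZMod p) (hn : n.valMinAbs.natAbs ≤ 2 * N) :
    ‖EXA_E h n - h‖ ≤ h * (4 * Real.pi * h * N / p) := by
  have hp : (0 : ℝ) < p := by exact_mod_cast (Fact.out : p.Prime).pos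
  have e : EXA_E h n - h = ∑ v ∈ range h, ((ZMod.stdAddChar ((v : ZMod p) * (-n)) : ℂ) - 1) := by
    rw [sum_sub_distrib]
    unfold EXA_E
    simp only [mul_neg]
    simp
  rw [e]
  refine (norm_sum_le _ _).trans ?_
  have h1 : ∀ v ∈ range h, ‖((ZMod.stdAddChar ((v : ZMod p) * (-n)) : ℂ) - 1)‖ ≤
      4 * Real.pi * h * N / p := by
    intro v hv
    refine (EXA_one p (2 * N) v (-n) ?_).trans ?_
    · rw [ZMod.natAbs_valMinAbs_neg]
      exact hn
    · apply div_le_div_of_nonneg_right _ hp.le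
      have hv' : (v : ℝ) ≤ h := by exact_mod_cast (mem_range.1 hv).le
      push_cast
      have : 2 * Real.pi * (v : ℝ) * (2 * N) ≤ 2 * Real.pi * (h : ℝ) * (2 * N) := by
        apply mul_le_mul_of_nonneg_right _ (by positivity)
        apply mul_le_mul_of_nonneg_left hv' (by positivity)
      linarith
  refine (sum_le_sum h1).trans (le_of_eq ?_)
  rw [sum_const, card_range, nsmul_eq_mul]

theorem EXA_id (p : ℕ) [Fact p.Prime] (χ : MulChar (ZMod p) ℂ) (τ : ℂ)
    (hτ : ∀ n : ZMod p, τ * χ n = ∑ t : ZMod p, χ⁻¹ t * (ZMod.stdAddChar (t * n) : ℂ)) (h : ℕ)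
    (A B : Finset (ZMod p)) (α β : ZMod p → ℂ) :
    τ * ∑ a ∈ A, ∑ b ∈ B, α a * β b * χ (a + b) * EXA_E h (a + b) =
      ∑ t : ZMod p, (Pool.Agent.SPI.ft A α t * Pool.Agent.SPI.ft B β t) *
        ∑ v ∈ range h, χ⁻¹ (t + (v : ZMod p)) := by
  -- one term
  have key : ∀ n : ZMod p, τ * χ n * EXA_E h n =
      ∑ t : ZMod p, (∑ v ∈ range h, χ⁻¹ (t + (v : ZMod p))) * (ZMod.stdAddChar (t * n) : ℂ) := by
    intro n
    unfold EXA_E
    rw [hτ, mul_sum]
    simp only [sum_mul]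
    rw [sum_comm]
    rw [sum_comm (s := (univ : Finset (ZMod p))) (t := range h)
      (f := fun t v => χ⁻¹ (t + (v : ZMod p)) * (ZMod.stdAddChar (t * n) : ℂ))]
    rw [sum_comm]
    refine sum_congr rfl fun v _ => ?_
    refine Fintype.sum_equiv (Equiv.subRight (v : ZMod p)) _ _ fun t => ?_
    simp only [Equiv.subRight_apply, sub_add_cancel]
    have e : (t - (v : ZMod p)) * n = t * n + -((v : ZMod p) * n) := by ring
    rw [e, AddChar.map_add_eq_mul]
    ring
  rw [mul_sum]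
  simp only [mul_sum (s := B)]
  have e1 : ∀ a ∈ A, ∀ b ∈ B, τ * (α a * β b * χ (a + b) * EXA_E h (a + b)) =
      ∑ t : ZMod p, (α a * (ZMod.stdAddChar (t * a) : ℂ)) * (β b * (ZMod.stdAddChar (t * b) : ℂ)) *
        ∑ v ∈ range h, χ⁻¹ (t + (v : ZMod p)) := by
    intro a _ b _
    have e2 : τ * (α a * β b * χ (a + b) * EXA_E h (a + b)) =
        α a * β b * (τ * χ (a + b) * EXA_E h (a + b)) := by ring
    rw [e2, key, mul_sum]
    refine sum_congr rfl fun t _ => ?_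
    rw [mul_add, AddChar.map_add_eq_mul]
    ring
  rw [sum_congr rfl fun a ha => sum_congr rfl fun b hb => e1 a ha b hb]
  rw [sum_congr rfl fun a _ => sum_comm, sum_comm]
  refine sum_congr rfl fun t _ => ?_
  unfold Pool.Agent.SPI.ft
  rw [sum_mul_sum, sum_mul]
  refine sum_congr rfl fun a _ => ?_
  rw [sum_mul]

theorem EXA (hGSI : Pool.Agent.SPI.GSI_stmt) : EXA_stmt := by
  intro p _ χ hχ h N A B α β hh hA hB hα hβ
  obtain ⟨τ, hτn, hτ⟩ := hGSI p χ hχ
  have hp : (0 : ℝ) < p := by exact_mod_cast (Fact.out : p.Prime).pos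
  have hid := EXA_id p χ τ hτ h A B α β
  have hχn : ∀ x, ‖χ x‖ ≤ 1 := by
    intro x
    exact DirichletCharacter.norm_le_one χ x
  -- the decomposition
  have hdec : (h : ℂ) * τ * ∑ a ∈ A, ∑ b ∈ B, α a * β b * χ (a + b) =
      τ * ∑ a ∈ A, ∑ b ∈ B, α a * β b * χ (a + b) * EXA_E h (a + b) -
        τ * ∑ a ∈ A, ∑ b ∈ B, α a * β b * χ (a + b) * (EXA_E h (a + b) - h) := by
    rw [← mul_sub, ← sum_sub_distrib]
    simp only [← sum_sub_distrib]
    have e : ∀ a b : ZMod p, α a * β b * χ (a + b) * EXA_E h (a + b) -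
        α a * β b * χ (a + b) * (EXA_E h (a + b) - h) = h * (α a * β b * χ (a + b)) := by
      intro a b
      ring
    simp only [e, ← mul_sum]
    ring
  have hn1 : ‖τ * ∑ a ∈ A, ∑ b ∈ B, α a * β b * χ (a + b) * EXA_E h (a + b)‖ ≤
      ∑ t : ZMod p, (‖Pool.Agent.SPI.ft A α t‖ * ‖Pool.Agent.SPI.ft B β t‖) * Wc χ⁻¹ h t := by
    rw [hid]
    refine (norm_sum_le _ _).trans (le_of_eq ?_)
    refine sum_congr rfl fun t _ => ?_
    rw [norm_mul, norm_mul]
    rfl
  have hn2 : ‖τ * ∑ a ∈ A, ∑ b ∈ B, α a * β b * χ (a + b) * (EXA_E h (a + b) - h)‖ ≤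
      h * Real.sqrt p * (4 * Real.pi * h * N / p * (A.card * B.card)) := by
    rw [norm_mul, hτn]
    have h1 : ‖∑ a ∈ A, ∑ b ∈ B, α a * β b * χ (a + b) * (EXA_E h (a + b) - h)‖ ≤
        A.card * (B.card * (h * (4 * Real.pi * h * N / p))) := by
      refine (norm_sum_le _ _).trans ?_
      have h2 : ∀ a ∈ A, ‖∑ b ∈ B, α a * β b * χ (a + b) * (EXA_E h (a + b) - h)‖ ≤
          B.card * (h * (4 * Real.pi * h * N / p)) := by
        intro a ha
        refine (norm_sum_le _ _).trans ?_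
        have h3 : ∀ b ∈ B, ‖α a * β b * χ (a + b) * (EXA_E h (a + b) - h)‖ ≤
            h * (4 * Real.pi * h * N / p) := by
          intro b hb
          rw [norm_mul, norm_mul, norm_mul]
          have h4 : ‖α a‖ * ‖β b‖ * ‖χ (a + b)‖ ≤ 1 := by
            exact mul_le_one₀ (mul_le_one₀ (hα a) (norm_nonneg _) (hβ b)) (norm_nonneg _) (hχn _)
          have h5 : ‖EXA_E h (a + b) - h‖ ≤ h * (4 * Real.pi * h * N / p) := by
            apply EXA_E_sub
            have h6 := ZMod.natAbs_valMinAbs_add_le a b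
            have h7 := Int.natAbs_add_le a.valMinAbs b.valMinAbs
            have h8 := hA a ha
            have h9 := hB b hb
            omega
          calc ‖α a‖ * ‖β b‖ * ‖χ (a + b)‖ * ‖EXA_E h (a + b) - h‖
              ≤ 1 * (h * (4 * Real.pi * h * N / p)) :=
                mul_le_mul h4 h5 (norm_nonneg _) zero_le_one
            _ = _ := one_mul _
        refine (sum_le_sum h3).trans (le_of_eq ?_)
        rw [sum_const, nsmul_eq_mul]
      refine (sum_le_sum h2).trans (le_of_eq ?_)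
      rw [sum_const, nsmul_eq_mul]
    refine (mul_le_mul_of_nonneg_left h1 (Real.sqrt_nonneg _)).trans (le_of_eq ?_)
    ring
  calc h * Real.sqrt p * ‖∑ a ∈ A, ∑ b ∈ B, α a * β b * χ (a + b)‖
      = ‖(h : ℂ) * τ * ∑ a ∈ A, ∑ b ∈ B, α a * β b * χ (a + b)‖ := by
        rw [norm_mul, norm_mul, hτn]
        simp
    _ ≤ _ := by
        rw [hdec]
        exact (norm_sub_le _ _).trans (add_le_add hn1 hn2)

end Pool.Agent.EIF
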